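import Pool.Agent.H.MP_ce2c94_gt.h13.Form
import Pool.Agent.H.MP_ce2c94_gt.h42.Wien4

/-!
From a zero of the nonlinear map of `D3.Spec` in the Wiener algebra to a shrinking torus.
-/

open Set Filter Topology Complex
open scoped ContDiff RealInnerProductSpace

namespace D3.H13

open Pool.MP_ce2c94_gt.D3W Pool.MP_ce2c94_gt.D3S

theorem clf_eq_lin (a b : ℂ) : lin a b = clf a b := rfl

/-- the Wiener algebra with its evaluations -/
noncomputable def EW : Ev W where
  ev p := ev p.1 p.2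
  norm_le p f := norm_ev_le _ _ f
  smooth := contDiff_ev
  Du := IsDu
  Dt := IsDt
  hasFDerivAt h1 h2 p := hasFDerivAt_ev h1 h2 p
  per_u f u t := ev_add_two_pi_left u t f
  per_t f u t := ev_add_two_pi_right u t f

/-- The components of a formal vector with their formal derivatives. -/
structure VJ where
  c : Fin 3 → W
  j : Fin 3 → W
  m : Fin 3 → W
  jj : Fin 3 → W
  jm : Fin 3 → W
  mm : Fin 3 → W

/-- the derivative relations -/
def VJ.Ok (C : VJ) : Prop :=
  ∀ i, WJet EW (C.c i) (C.j i) (C.m i) (C.jj i) (C.jm i) (C.mm i)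

/-- the symmetries of the components `P`, `iQ`, `iZ` -/
structure VJ.Sym (C : VJ) : Prop where
  p0 : Par 1 1 (C.c 0)
  p1 : Par 1 (-1) (C.c 1)
  p2 : Par (-1) 1 (C.c 2)

/-- the derivative relations of the jet of a scalar, in the order `φ, Dj, Dm, DjDj, DjDm, DmDm` -/
def SOk (x : Fin 6 → W) : Prop := WJet EW (x 0) (x 1) (x 2) (x 3) (x 4) (x 5)

theorem WJet.add {a b c d e f a' b' c' d' e' f' : W} (H : WJet EW a b c d e f)
    (K : WJet EW a' b' c' d' e' f') :
    WJet EW (a + a') (b + b') (c + c') (d + d') (e + e') (f + f') where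
  u := IsDu.add H.u K.u
  t := IsDt.add H.t K.t
  uu := IsDu.add H.uu K.uu
  ut := IsDt.add H.ut K.ut
  tu := IsDu.add H.tu K.tu
  tt := IsDt.add H.tt K.tt

/-- Leibniz rule for jets -/
theorem WJet.mul {a b c d e f a' b' c' d' e' f' : W} (H : WJet EW a b c d e f)
    (K : WJet EW a' b' c' d' e' f') :
    WJet EW (a * a') (b * a' + a * b') (c * a' + a * c') (d * a' + 2 * (b * b') + a * d')
      (e * a' + b * c' + c * b' + a * e') (f * a' + 2 * (c * c') + a * f') where
  u := IsDu.mul H.u K.u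
  t := IsDt.mul H.t K.t
  uu := by
    have h := IsDu.add (IsDu.mul H.uu K.u) (IsDu.mul H.u K.uu)
    have e : d * a' + b * b' + (b * b' + a * d') = d * a' + 2 * (b * b') + a * d' := by ring
    exact e ▸ h
  ut := by
    have h := IsDt.add (IsDt.mul H.ut K.t) (IsDt.mul H.t K.ut)
    have e : e * a' + b * c' + (c * b' + a * e') = e * a' + b * c' + c * b' + a * e' := by ring
    exact e ▸ h
  tu := by
    have h := IsDu.add (IsDu.mul H.tu K.u) (IsDu.mul H.u K.tu)
    have e : e * a' + c * b' + (b * c' + a * e') = e * a' + b * c' + c * b' + a * e' := by ring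
    exact e ▸ h
  tt := by
    have h := IsDt.add (IsDt.mul H.tt K.t) (IsDt.mul H.t K.tt)
    have e : f * a' + c * c' + (c * c' + a * f') = f * a' + 2 * (c * c') + a * f' := by ring
    exact e ▸ h

/-- the perturbed vector `C + φ V` -/
noncomputable def pert (C V : VJ) (x : Fin 6 → W) : VJ where
  c i := C.c i + x 0 * V.c i
  j i := C.j i + (x 1 * V.c i + x 0 * V.j i)
  m i := C.m i + (x 2 * V.c i + x 0 * V.m i)
  jj i := C.jj i + (x 3 * V.c i + 2 * (x 1 * V.j i) + x 0 * V.jj i)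
  jm i := C.jm i + (x 4 * V.c i + x 1 * V.m i + x 2 * V.j i + x 0 * V.jm i)
  mm i := C.mm i + (x 5 * V.c i + 2 * (x 2 * V.m i) + x 0 * V.mm i)

theorem pert_ok {C V : VJ} (hC : C.Ok) (hV : V.Ok) {x : Fin 6 → W} (hx : SOk x) :
    (pert C V x).Ok := fun i => (hC i).add (WJet.mul hx (hV i))

theorem pert_sym {C V : VJ} (hC : C.Sym) (hV : V.Sym) {x : Fin 6 → W} (hx : Par 1 1 (x 0)) :
    (pert C V x).Sym where
  p0 := hC.p0.add ((hx.mul hV.p0).cast (by ring) (by ring))
  p1 := hC.p1.add ((hx.mul hV.p1).cast (by ring) (by ring))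
  p2 := hC.p2.add ((hx.mul hV.p2).cast (by ring) (by ring))

/-- the formal surface -/
noncomputable def frame (n : ℕ) (C : VJ) (hC : C.Ok) (sC : C.Sym) : Frame EW where
  k := n
  c := C.c
  j := C.j
  m := C.m
  jj := C.jj
  jm := C.jm
  mm := C.mm
  jet := hC
  re0 := fun _ => sC.p0.im_eq_zero (by norm_num) _ _
  im1 := fun _ => sC.p1.re_eq_zero (by norm_num) _ _
  im2 := fun _ => sC.p2.re_eq_zero (by norm_num) _ _

/-- the background data of `D3.Spec` -/
noncomputable def bg (n : ℕ) (s : W) (C V : VJ) : Bg W where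
  k := (n : W)
  s := s
  C := C.c
  A := C.j
  B := rD (n : W) C.m C.c
  p := C.jj
  q := rD (n : W) C.jm C.j
  w := rD (n : W) (rD (n : W) C.mm C.m) (rD (n : W) C.m C.c)
  V := V.c
  Vj := V.j
  V2 := rD (n : W) V.m V.c
  Vjj := V.jj
  Vj2 := rD (n : W) V.jm V.j
  V22 := rD (n : W) (rD (n : W) V.mm V.m) (rD (n : W) V.m V.c)

section Eqs

variable (n : ℕ) (s : W) (C V : VJ) (x : Fin 6 → W)

theorem fC_eq : (bg n s C V).fC x = (pert C V x).c := rfl

theorem fA_eq : (bg n s C V).fA x = (pert C V x).j := by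
  funext i
  simp only [Bg.fA, bg, pert]
  ring

theorem fB_eq : (bg n s C V).fB x = rD (n : W) (pert C V x).m (pert C V x).c := by
  funext i
  fin_cases i <;> simp [Bg.fB, bg, pert, rD] <;> ring

theorem fp_eq : (bg n s C V).fp x = (pert C V x).jj := by
  funext i
  simp only [Bg.fp, bg, pert]
  ring

theorem fq_eq : (bg n s C V).fq x = rD (n : W) (pert C V x).jm (pert C V x).j := by
  funext i
  fin_cases i <;> simp [Bg.fq, bg, pert, rD] <;> ring

theorem fw_eq : (bg n s C V).fw x = rD (n : W) (rD (n : W) (pert C V x).mm (pert C V x).m)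
    (rD (n : W) (pert C V x).m (pert C V x).c) := by
  funext i
  fin_cases i <;> simp [Bg.fw, bg, pert, rD] <;> ring

end Eqs

/-- positivity of the real parts of the values -/
def Pos (f : W) : Prop := ∀ p : ℝ × ℝ, 0 < (ev p.1 p.2 f).re

/-- `cos u` -/
noncomputable def cu : W := (1 / 2 : ℝ) • (e (1, 0) + e (-1, 0))

/-- `i sin u` -/
noncomputable def su1 : W := (1 / 2 : ℝ) • (e (1, 0) - e (-1, 0))

theorem ev_cu (p : ℝ × ℝ) : EW.ev p cu = (Real.cos p.1 : ℂ) := by
  have h : EW.ev p cu = (1 / 2 : ℝ) • (chr p.1 p.2 (1, 0) + chr p.1 p.2 (-1, 0)) := by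
    change ev p.1 p.2 cu = _
    unfold cu
    rw [map_smul, map_add, ev_e, ev_e]
  rw [h, Complex.real_smul, Complex.ofReal_cos, Complex.cos]
  unfold chr
  push_cast
  ring_nf

theorem ev_su1 (p : ℝ × ℝ) : EW.ev p su1 = I * (Real.sin p.1 : ℂ) := by
  have h : EW.ev p su1 = (1 / 2 : ℝ) • (chr p.1 p.2 (1, 0) - chr p.1 p.2 (-1, 0)) := by
    change ev p.1 p.2 su1 = _
    unfold su1
    rw [map_smul, map_sub, ev_e, ev_e]
  rw [h, Complex.real_smul, Complex.ofReal_sin, Complex.sin]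
  unfold chr
  have hI : I * ((cexp (-(p.1 : ℂ) * I) - cexp ((p.1 : ℂ) * I)) * I / 2) =
      (I * I) * ((cexp (-(p.1 : ℂ) * I) - cexp ((p.1 : ℂ) * I)) / 2) := by ring
  rw [hI, I_mul_I]
  push_cast
  ring_nf

/-! ### the theorem -/

section Torus

variable {n : ℕ} {s : W} {C V : VJ} {x : Fin 6 → W}

theorem algMap (n : ℕ) : ((n : ℕ) : W) = algebraMap ℝ W n := by simp

/-- a zero of the nonlinear map is a solution of the shrinker equation -/
theorem eqn_zero (hC : (pert C V x).Ok) (sC : (pert C V x).Sym)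
    (hs : ∀ p : ℝ × ℝ, ev p.1 p.2 s ≠ 0) (hF : (bg n s C V).F x = 0) (p : ℝ × ℝ) :
    (frame n (pert C V x) hC sC).toRot.Eqn p = 0 := by
  have h1 := (bg n s C V).F_eq x
  rw [hF, fC_eq, fA_eq, fB_eq, fp_eq, fq_eq, fw_eq] at h1
  have h2 := (frame n (pert C V x) hC sC).ev_shr p
  have h3 : EW.ev p ((bg n s C V).s ^ 5 * (frame n (pert C V x) hC sC).shr) = 0 := by
    have : (0 : W) = (bg n s C V).s ^ 5 * (frame n (pert C V x) hC sC).shr := h1
    rw [← this, map_zero]
  rw [map_mul, map_pow, h2] at h3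
  have h4 : EW.ev p (bg n s C V).s ≠ 0 := hs p
  rcases mul_eq_zero.mp h3 with h | h
  · exact absurd (pow_eq_zero_iff (by norm_num) |>.mp h) h4
  · simpa using h

/-- **The surface given by a zero of the nonlinear map is a shrinking torus.** -/
theorem torus_of_zero (hC : (pert C V x).Ok) (sC : (pert C V x).Sym)
    (hs : ∀ p : ℝ × ℝ, ev p.1 p.2 s ≠ 0) (hF : (bg n s C V).F x = 0) {S0 c : ℝ} (hc : 0 < c)
    (h1 : Pos ((bg n s C V).fC x 0))
    (h2 : Pos (ang1 cu su1 (algebraMap ℝ W S0) (algebraMap ℝ W c) ((bg n s C V).fC x)))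
    (h3 : Pos (ang2 ((bg n s C V).fC x) ((bg n s C V).fB x)))
    (h4 : Pos (jac (algebraMap ℝ W S0) ((bg n s C V).fC x) ((bg n s C V).fA x)
      ((bg n s C V).fB x))) :
    IsShrinkingTorus (range (frame n (pert C V x) hC sC).toRot.toSurf.X) := by
  set X := frame n (pert C V x) hC sC with hX
  have eC : (bg n s C V).fC x = X.c := rfl
  have eA : (bg n s C V).fA x = X.a := fA_eq n s C V x
  have eB : (bg n s C V).fB x = X.b := fB_eq n s C V x
  rw [eC] at h1 h2 h3 h4
  rw [eB] at h3 h4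
  rw [eA] at h4
  refine X.toRot.isShrinkingTorus hc (S0 := S0) (fun p => h1 p) (fun p => ?_) (fun p => ?_)
    (fun p => ?_) (eqn_zero hC sC hs hF)
  · have := h2 p
    have e2 := X.ev_ang1 (ev_cu p) (ev_su1 p) S0 c
    have e3 : (ev p.1 p.2 (ang1 cu su1 (algebraMap ℝ W S0) (algebraMap ℝ W c) X.c)).re =
      (X.toRot.P p ^ 2 + X.toRot.Q p ^ 2 - S0) * Real.cos p.1 +
        c * X.toRot.Z p * Real.sin p.1 := by
      change (EW.ev p _).re = _
      rw [e2, Complex.ofReal_re]
    rwa [e3] at this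
  · have := h3 p
    have e2 := X.ev_ang2 p
    have e3 : (ev p.1 p.2 (ang2 X.c X.b)).re =
      X.toRot.P p * X.toRot.DQ p - X.toRot.Q p * X.toRot.DP p := by
      change (EW.ev p _).re = _
      rw [e2, Complex.ofReal_re]
    rwa [e3] at this
  · have := h4 p
    have e2 := X.ev_jac S0 p
    have e3 : (ev p.1 p.2 (jac (algebraMap ℝ W S0) X.c X.a X.b)).re = X.toRot.Jac S0 p := by
      change (EW.ev p _).re = _
      rw [e2, Complex.ofReal_re]
    rwa [e3] at this

end Torus

end D3.H13
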