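import Pool.Agent.H.MP_ce2c94_gt.h13.Link
import Pool.Agent.H.MP_ce2c94_gt.D3.Spec

/-!
The formal shrinker polynomial in the rotating frame and its value at a point.
-/

open Set Filter Topology Complex
open scoped ContDiff RealInnerProductSpace

namespace D3.H13

open Pool.MP_ce2c94_gt.D3S (eta dt crs PF)

section Poly

variable {R : Type*} [CommRing R]

/-- the operator `D = k ∂ + J` of the rotating frame; `m` are the components of the derivative and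
`c` those of the vector -/
def rD (k : R) (m c : Fin 3 → R) : Fin 3 → R := ![k * m 0 + c 1, k * m 1 + c 0, k * m 2]

/-- the quantity of the first angle -/
def ang1 (cu su : R) (S0 cc : R) (c : Fin 3 → R) : R :=
  (c 0 ^ 2 - c 1 ^ 2 - S0) * cu - cc * c 2 * su

/-- the quantity of the second angle -/
def ang2 (c b : Fin 3 → R) : R := c 0 * b 1 - c 1 * b 0

/-- the Jacobian -/
def jac (S0 : R) (c a b : Fin 3 → R) : R :=
  -((c 0 ^ 2 - c 1 ^ 2 - S0) * (c 0 * crs a b 0 + c 1 * crs a b 1) +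
    2 * (c 0 ^ 2 - c 1 ^ 2) * (c 2 * crs a b 2))

end Poly

variable {W : Type*} [NormedCommRing W] [NormedAlgebra ℝ W]

/-- a formal surface in the rotating frame: the components `P, iQ, iZ` with their formal
derivatives -/
structure Frame (E : Ev W) where
  k : ℕ
  c : Fin 3 → W
  j : Fin 3 → W
  m : Fin 3 → W
  jj : Fin 3 → W
  jm : Fin 3 → W
  mm : Fin 3 → W
  jet : ∀ i, WJet E (c i) (j i) (m i) (jj i) (jm i) (mm i)
  re0 : E.IsRe (c 0)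
  im1 : E.IsIm (c 1)
  im2 : E.IsIm (c 2)

namespace Frame

variable {E : Ev W} (X : Frame E)

/-- the first derivatives -/
def a : Fin 3 → W := X.j
def b : Fin 3 → W := rD (X.k : W) X.m X.c
/-- the second derivatives -/
def aa : Fin 3 → W := X.jj
def ab : Fin 3 → W := rD (X.k : W) X.jm X.j
def bb : Fin 3 → W := rD (X.k : W) (rD (X.k : W) X.mm X.m) X.b

/-- the shrinker polynomial -/
def shr : W := PF X.c X.a X.b X.aa X.ab X.bb

/-- the surface in the rotating frame -/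
noncomputable def toRot : Rot where
  N := X.k
  P := fun p => (E.ev p (X.c 0)).re
  Q := fun p => (E.ev p (X.c 1)).im
  Z := fun p => (E.ev p (X.c 2)).im
  Pu := fun p => -(E.ev p (X.j 0)).im
  Pt := fun p => -(E.ev p (X.m 0)).im
  Qu := fun p => (E.ev p (X.j 1)).re
  Qt := fun p => (E.ev p (X.m 1)).re
  Zu := fun p => (E.ev p (X.j 2)).re
  Zt := fun p => (E.ev p (X.m 2)).re
  Puu := fun p => -(E.ev p (X.jj 0)).re
  Put := fun p => -(E.ev p (X.jm 0)).re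
  Ptt := fun p => -(E.ev p (X.mm 0)).re
  Quu := fun p => -(E.ev p (X.jj 1)).im
  Qut := fun p => -(E.ev p (X.jm 1)).im
  Qtt := fun p => -(E.ev p (X.mm 1)).im
  Zuu := fun p => -(E.ev p (X.jj 2)).im
  Zut := fun p => -(E.ev p (X.jm 2)).im
  Ztt := fun p => -(E.ev p (X.mm 2)).im
  jP := (X.jet 0).reJet
  jQ := (X.jet 1).imJet
  jZ := (X.jet 2).imJet
  pP := fun u t => by simp only [E.per_u]
  pP' := fun u t => by simp only [E.per_t]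
  pQ := fun u t => by simp only [E.per_u]
  pQ' := fun u t => by simp only [E.per_t]
  pZ := fun u t => by simp only [E.per_u]
  pZ' := fun u t => by simp only [E.per_t]

theorem ev_c0 (p : ℝ × ℝ) : E.ev p (X.c 0) = (X.toRot.P p : ℂ) := X.re0.eq p
theorem ev_c1 (p : ℝ × ℝ) : E.ev p (X.c 1) = I * (X.toRot.Q p : ℂ) := X.im1.eq p
theorem ev_c2 (p : ℝ × ℝ) : E.ev p (X.c 2) = I * (X.toRot.Z p : ℂ) := X.im2.eq p

theorem im_j0 : E.IsIm (X.j 0) := (X.re0.deriv (X.jet 0).u (X.jet 0).t).1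
theorem im_m0 : E.IsIm (X.m 0) := (X.re0.deriv (X.jet 0).u (X.jet 0).t).2
theorem re_j1 : E.IsRe (X.j 1) := (X.im1.deriv (X.jet 1).u (X.jet 1).t).1
theorem re_m1 : E.IsRe (X.m 1) := (X.im1.deriv (X.jet 1).u (X.jet 1).t).2
theorem re_j2 : E.IsRe (X.j 2) := (X.im2.deriv (X.jet 2).u (X.jet 2).t).1
theorem re_m2 : E.IsRe (X.m 2) := (X.im2.deriv (X.jet 2).u (X.jet 2).t).2

theorem ev_j0 (p : ℝ × ℝ) : E.ev p (X.j 0) = -I * (X.toRot.Pu p : ℂ) := by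
  rw [X.im_j0.eq p]
  simp [toRot]

theorem ev_m0 (p : ℝ × ℝ) : E.ev p (X.m 0) = -I * (X.toRot.Pt p : ℂ) := by
  rw [X.im_m0.eq p]
  simp [toRot]

theorem ev_j1 (p : ℝ × ℝ) : E.ev p (X.j 1) = (X.toRot.Qu p : ℂ) := X.re_j1.eq p
theorem ev_m1 (p : ℝ × ℝ) : E.ev p (X.m 1) = (X.toRot.Qt p : ℂ) := X.re_m1.eq p
theorem ev_j2 (p : ℝ × ℝ) : E.ev p (X.j 2) = (X.toRot.Zu p : ℂ) := X.re_j2.eq p
theorem ev_m2 (p : ℝ × ℝ) : E.ev p (X.m 2) = (X.toRot.Zt p : ℂ) := X.re_m2.eq p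

theorem ev_jj0 (p : ℝ × ℝ) : E.ev p (X.jj 0) = -(X.toRot.Puu p : ℂ) := by
  rw [(X.im_j0.deriv (X.jet 0).uu (X.jet 0).ut).1.eq p]
  simp [toRot]

theorem ev_jm0 (p : ℝ × ℝ) : E.ev p (X.jm 0) = -(X.toRot.Put p : ℂ) := by
  rw [(X.im_j0.deriv (X.jet 0).uu (X.jet 0).ut).2.eq p]
  simp [toRot]

theorem ev_mm0 (p : ℝ × ℝ) : E.ev p (X.mm 0) = -(X.toRot.Ptt p : ℂ) := by
  rw [(X.im_m0.deriv (X.jet 0).tu (X.jet 0).tt).2.eq p]
  simp [toRot]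

theorem ev_jj1 (p : ℝ × ℝ) : E.ev p (X.jj 1) = -I * (X.toRot.Quu p : ℂ) := by
  rw [(X.re_j1.deriv (X.jet 1).uu (X.jet 1).ut).1.eq p]
  simp [toRot]

theorem ev_jm1 (p : ℝ × ℝ) : E.ev p (X.jm 1) = -I * (X.toRot.Qut p : ℂ) := by
  rw [(X.re_j1.deriv (X.jet 1).uu (X.jet 1).ut).2.eq p]
  simp [toRot]

theorem ev_mm1 (p : ℝ × ℝ) : E.ev p (X.mm 1) = -I * (X.toRot.Qtt p : ℂ) := by
  rw [(X.re_m1.deriv (X.jet 1).tu (X.jet 1).tt).2.eq p]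
  simp [toRot]

theorem ev_jj2 (p : ℝ × ℝ) : E.ev p (X.jj 2) = -I * (X.toRot.Zuu p : ℂ) := by
  rw [(X.re_j2.deriv (X.jet 2).uu (X.jet 2).ut).1.eq p]
  simp [toRot]

theorem ev_jm2 (p : ℝ × ℝ) : E.ev p (X.jm 2) = -I * (X.toRot.Zut p : ℂ) := by
  rw [(X.re_j2.deriv (X.jet 2).uu (X.jet 2).ut).2.eq p]
  simp [toRot]

theorem ev_mm2 (p : ℝ × ℝ) : E.ev p (X.mm 2) = -I * (X.toRot.Ztt p : ℂ) := by
  rw [(X.re_m2.deriv (X.jet 2).tu (X.jet 2).tt).2.eq p]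
  simp [toRot]

theorem ev_b0 (p : ℝ × ℝ) : E.ev p (X.b 0) = -I * (X.toRot.DP p : ℂ) := by
  have h : X.toRot.N = X.k := rfl
  simp only [b, rD, Matrix.cons_val, map_add, map_mul, map_natCast, X.ev_m0, X.ev_c1, Rot.DP, h]
  push_cast
  ring

theorem ev_b1 (p : ℝ × ℝ) : E.ev p (X.b 1) = (X.toRot.DQ p : ℂ) := by
  have h : X.toRot.N = X.k := rfl
  simp only [b, rD, Matrix.cons_val, map_add, map_mul, map_natCast, X.ev_m1, X.ev_c0, Rot.DQ, h]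
  push_cast
  ring

theorem ev_b2 (p : ℝ × ℝ) : E.ev p (X.b 2) = (X.toRot.DZ p : ℂ) := by
  have h : X.toRot.N = X.k := rfl
  simp only [b, rD, Matrix.cons_val, map_mul, map_natCast, X.ev_m2, Rot.DZ, h]
  push_cast
  ring

theorem ev_ab0 (p : ℝ × ℝ) : E.ev p (X.ab 0) = -(X.toRot.DPu p : ℂ) := by
  have h : X.toRot.N = X.k := rfl
  simp only [ab, rD, Matrix.cons_val, map_add, map_mul, map_natCast, X.ev_jm0, X.ev_j1, Rot.DPu, h]
  push_cast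
  ring

theorem ev_ab1 (p : ℝ × ℝ) : E.ev p (X.ab 1) = -I * (X.toRot.DQu p : ℂ) := by
  have h : X.toRot.N = X.k := rfl
  simp only [ab, rD, Matrix.cons_val, map_add, map_mul, map_natCast, X.ev_jm1, X.ev_j0, Rot.DQu, h]
  push_cast
  ring

theorem ev_ab2 (p : ℝ × ℝ) : E.ev p (X.ab 2) = -I * (X.toRot.DZu p : ℂ) := by
  have h : X.toRot.N = X.k := rfl
  simp only [ab, rD, Matrix.cons_val, map_mul, map_natCast, X.ev_jm2, Rot.DZu, h]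
  push_cast
  ring

theorem ev_bb0 (p : ℝ × ℝ) : E.ev p (X.bb 0) = -(X.toRot.DDP p : ℂ) := by
  have h : X.toRot.N = X.k := rfl
  simp only [bb, rD, Matrix.cons_val, map_add, map_mul, map_natCast, X.ev_mm0, X.ev_m1, X.ev_b1,
    Rot.DDP, h]
  push_cast
  ring

theorem ev_bb1 (p : ℝ × ℝ) : E.ev p (X.bb 1) = -I * (X.toRot.DDQ p : ℂ) := by
  have h : X.toRot.N = X.k := rfl
  simp only [bb, rD, Matrix.cons_val, map_add, map_mul, map_natCast, X.ev_mm1, X.ev_m0, X.ev_b0,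
    Rot.DDQ, h]
  push_cast
  ring

theorem ev_bb2 (p : ℝ × ℝ) : E.ev p (X.bb 2) = -I * (X.toRot.DDZ p : ℂ) := by
  have h : X.toRot.N = X.k := rfl
  simp only [bb, rD, Matrix.cons_val, map_mul, map_natCast, X.ev_mm2, Rot.DDZ, h]
  push_cast
  ring

theorem ev_etaAA (p : ℝ × ℝ) : E.ev p (eta X.a X.a) = -(X.toRot.E p : ℂ) := by
  simp only [Pool.MP_ce2c94_gt.D3S.eta, a, map_sub, map_mul, X.ev_j0, X.ev_j1, X.ev_j2, Rot.E]
  push_cast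
  linear_combination (X.toRot.Pu p : ℂ) * (X.toRot.Pu p : ℂ) * I_sq

theorem ev_etaAB (p : ℝ × ℝ) : E.ev p (eta X.a X.b) = -(X.toRot.F p : ℂ) := by
  simp only [Pool.MP_ce2c94_gt.D3S.eta, map_sub, map_mul, X.ev_b0, X.ev_b1, X.ev_b2]
  simp only [a, X.ev_j0, X.ev_j1, X.ev_j2, Rot.F]
  push_cast
  linear_combination (X.toRot.Pu p : ℂ) * (X.toRot.DP p : ℂ) * I_sq

theorem ev_etaBB (p : ℝ × ℝ) : E.ev p (eta X.b X.b) = -(X.toRot.G p : ℂ) := by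
  simp only [Pool.MP_ce2c94_gt.D3S.eta, map_sub, map_mul, X.ev_b0, X.ev_b1, X.ev_b2, Rot.G]
  push_cast
  linear_combination (X.toRot.DP p : ℂ) * (X.toRot.DP p : ℂ) * I_sq

theorem ev_n0 (p : ℝ × ℝ) : E.ev p (crs X.a X.b 0) = (X.toRot.m1 p : ℂ) := by
  simp only [crs, Matrix.cons_val, map_sub, map_mul, X.ev_b1, X.ev_b2]
  simp only [a, X.ev_j1, X.ev_j2, Rot.m1]
  push_cast
  ring

theorem ev_n1 (p : ℝ × ℝ) : E.ev p (crs X.a X.b 1) = -I * (X.toRot.m2 p : ℂ) := by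
  simp only [crs, Matrix.cons_val, map_sub, map_mul, X.ev_b0, X.ev_b2]
  simp only [a, X.ev_j0, X.ev_j2, Rot.m2]
  push_cast
  ring

theorem ev_n2 (p : ℝ × ℝ) : E.ev p (crs X.a X.b 2) = -I * (X.toRot.m3 p : ℂ) := by
  simp only [crs, Matrix.cons_val, map_sub, map_mul, X.ev_b0, X.ev_b1]
  simp only [a, X.ev_j0, X.ev_j1, Rot.m3]
  push_cast
  ring

/-- the value of the shrinker polynomial -/
theorem ev_shr (p : ℝ × ℝ) : E.ev p X.shr = 2 * (X.toRot.Eqn p : ℂ) := by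
  have e0 : E.ev p (dt X.aa (crs X.a X.b)) = -((X.toRot.Puu p : ℂ) * (X.toRot.m1 p : ℂ) +
      (X.toRot.Quu p : ℂ) * (X.toRot.m2 p : ℂ) + (X.toRot.Zuu p : ℂ) * (X.toRot.m3 p : ℂ)) := by
    simp only [dt, map_add, map_mul, X.ev_n0, X.ev_n1, X.ev_n2]
    simp only [aa, X.ev_jj0, X.ev_jj1, X.ev_jj2]
    linear_combination ((X.toRot.Quu p : ℂ) * (X.toRot.m2 p : ℂ) +
      (X.toRot.Zuu p : ℂ) * (X.toRot.m3 p : ℂ)) * I_sq
  have e1 : E.ev p (dt X.ab (crs X.a X.b)) = -((X.toRot.DPu p : ℂ) * (X.toRot.m1 p : ℂ) +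
      (X.toRot.DQu p : ℂ) * (X.toRot.m2 p : ℂ) + (X.toRot.DZu p : ℂ) * (X.toRot.m3 p : ℂ)) := by
    simp only [dt, map_add, map_mul, X.ev_n0, X.ev_n1, X.ev_n2, X.ev_ab0, X.ev_ab1, X.ev_ab2]
    linear_combination ((X.toRot.DQu p : ℂ) * (X.toRot.m2 p : ℂ) +
      (X.toRot.DZu p : ℂ) * (X.toRot.m3 p : ℂ)) * I_sq
  have e2 : E.ev p (dt X.bb (crs X.a X.b)) = -((X.toRot.DDP p : ℂ) * (X.toRot.m1 p : ℂ) +
      (X.toRot.DDQ p : ℂ) * (X.toRot.m2 p : ℂ) + (X.toRot.DDZ p : ℂ) * (X.toRot.m3 p : ℂ)) := by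
    simp only [dt, map_add, map_mul, X.ev_n0, X.ev_n1, X.ev_n2, X.ev_bb0, X.ev_bb1, X.ev_bb2]
    linear_combination ((X.toRot.DDQ p : ℂ) * (X.toRot.m2 p : ℂ) +
      (X.toRot.DDZ p : ℂ) * (X.toRot.m3 p : ℂ)) * I_sq
  have e3 : E.ev p (dt X.c (crs X.a X.b)) = (X.toRot.P p : ℂ) * (X.toRot.m1 p : ℂ) +
      (X.toRot.Q p : ℂ) * (X.toRot.m2 p : ℂ) + (X.toRot.Z p : ℂ) * (X.toRot.m3 p : ℂ) := by
    simp only [dt, map_add, map_mul, X.ev_n0, X.ev_n1, X.ev_n2, X.ev_c0, X.ev_c1, X.ev_c2]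
    linear_combination (-((X.toRot.Q p : ℂ) * (X.toRot.m2 p : ℂ) +
      (X.toRot.Z p : ℂ) * (X.toRot.m3 p : ℂ))) * I_sq
  simp only [shr, PF, map_add, map_sub, map_mul, map_pow, map_ofNat, e0, e1, e2, e3,
    X.ev_etaAA, X.ev_etaAB, X.ev_etaBB, Rot.Eqn]
  push_cast
  ring

/-- the value of the Jacobian -/
theorem ev_jac (S0 : ℝ) (p : ℝ × ℝ) :
    E.ev p (jac (algebraMap ℝ W S0) X.c X.a X.b) = (X.toRot.Jac S0 p : ℂ) := by
  have e0 : E.ev p (algebraMap ℝ W S0) = (S0 : ℂ) := AlgHom.commutes _ _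
  simp only [jac, map_neg, map_add, map_sub, map_mul, map_pow, map_ofNat, X.ev_n0, X.ev_n1,
    X.ev_n2, X.ev_c0, X.ev_c1, X.ev_c2, e0, Rot.Jac]
  push_cast
  ring_nf
  simp only [I_sq, I_pow_four]
  ring

theorem ev_ang2 (p : ℝ × ℝ) : E.ev p (ang2 X.c X.b) =
    ((X.toRot.P p * X.toRot.DQ p - X.toRot.Q p * X.toRot.DP p : ℝ) : ℂ) := by
  simp only [ang2, map_sub, map_mul, X.ev_b0, X.ev_b1, X.ev_c0, X.ev_c1]
  push_cast
  linear_combination ((X.toRot.Q p : ℂ) * (X.toRot.DP p : ℂ)) * I_sq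

theorem ev_ang1 {cu su : W} {p : ℝ × ℝ} (hc : E.ev p cu = (Real.cos p.1 : ℂ))
    (hs : E.ev p su = I * (Real.sin p.1 : ℂ)) (S0 cc : ℝ) :
    E.ev p (ang1 cu su (algebraMap ℝ W S0) (algebraMap ℝ W cc) X.c) =
      (((X.toRot.P p ^ 2 + X.toRot.Q p ^ 2 - S0) * Real.cos p.1 +
        cc * X.toRot.Z p * Real.sin p.1 : ℝ) : ℂ) := by
  have e0 : ∀ r : ℝ, E.ev p (algebraMap ℝ W r) = (r : ℂ) := fun r => AlgHom.commutes _ _
  simp only [ang1, map_sub, map_mul, map_pow, X.ev_c0, X.ev_c1, X.ev_c2, e0, hc, hs]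
  push_cast
  linear_combination (-(X.toRot.Q p : ℂ) ^ 2 * Complex.cos (p.1 : ℂ) -
    cc * (X.toRot.Z p : ℂ) * Complex.sin (p.1 : ℂ)) * I_sq

theorem ev_normSq (p : ℝ × ℝ) : E.ev p (eta X.c X.c) =
    ((X.toRot.P p ^ 2 + X.toRot.Q p ^ 2 + X.toRot.Z p ^ 2 : ℝ) : ℂ) := by
  simp only [Pool.MP_ce2c94_gt.D3S.eta, map_sub, map_mul, X.ev_c0, X.ev_c1, X.ev_c2]
  push_cast
  linear_combination (-(X.toRot.Q p : ℂ) ^ 2 - (X.toRot.Z p : ℂ) ^ 2) * I_sq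

end Frame

end D3.H13
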