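import Pool.Agent.H.MP_ce2c94_gt.D3Rot

/-!
From elements of a ring of Fourier series to surfaces in a rotating frame.

`W` is a normed ring with evaluations `ev p : W → ℂ` at the points `p` of the plane, such that
`p ↦ ev p f` is smooth and doubly `2π`-periodic, with derivatives `i ev p g`, `i ev p h` when `g`,
`h` are the formal derivatives of `f` (multiplication of the coefficients by the frequencies).
-/

open Set Filter Topology Complex
open scoped ContDiff RealInnerProductSpace

namespace D3.H13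

/-- the complex linear form `a du + b dt` -/
noncomputable def clf (a b : ℂ) : ℝ × ℝ →L[ℝ] ℂ :=
  (ContinuousLinearMap.fst ℝ ℝ ℝ).smulRight a + (ContinuousLinearMap.snd ℝ ℝ ℝ).smulRight b

theorem clf_apply (a b : ℂ) (z : ℝ × ℝ) : clf a b z = z.1 • a + z.2 • b := by
  simp [clf]

/-- A ring of formal Fourier series with its evaluations. -/
structure Ev (W : Type*) [NormedCommRing W] [NormedAlgebra ℝ W] where
  /-- evaluation at a point of the plane -/
  ev : ℝ × ℝ → W →ₐ[ℝ] ℂ
  norm_le : ∀ p f, ‖ev p f‖ ≤ ‖f‖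
  smooth : ∀ f, ContDiff ℝ ∞ (fun p => ev p f)
  /-- `Du f g`: `g` is the formal derivative of `f` in the first variable -/
  Du : W → W → Prop
  /-- `Dt f g`: `g` is the formal derivative of `f` in the second variable -/
  Dt : W → W → Prop
  hasFDerivAt : ∀ {f g h : W}, Du f g → Dt f h → ∀ p,
    HasFDerivAt (fun q => ev q f) (clf (I * ev p g) (I * ev p h)) p
  per_u : ∀ f u t, ev (u + 2 * Real.pi, t) f = ev (u, t) f
  per_t : ∀ f u t, ev (u, t + 2 * Real.pi) f = ev (u, t) f

variable {W : Type*} [NormedCommRing W] [NormedAlgebra ℝ W] (E : Ev W)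

/-- `f` has real values -/
def Ev.IsRe (f : W) : Prop := ∀ p, (E.ev p f).im = 0

/-- `f` has imaginary values -/
def Ev.IsIm (f : W) : Prop := ∀ p, (E.ev p f).re = 0

/-- an element with its formal derivatives up to the second order -/
structure WJet (E : Ev W) (v j m jj jm mm : W) : Prop where
  u : E.Du v j
  t : E.Dt v m
  uu : E.Du j jj
  ut : E.Dt j jm
  tu : E.Du m jm
  tt : E.Dt m mm

namespace Ev

theorem re_hasFDerivAt {f g h : W} (h1 : E.Du f g) (h2 : E.Dt f h) (p : ℝ × ℝ) :
    HasFDerivAt (fun q => (E.ev q f).re) (lf (-(E.ev p g).im) (-(E.ev p h).im)) p := by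
  have h3 := (Complex.reCLM.hasFDerivAt (x := E.ev p f)).comp p (E.hasFDerivAt h1 h2 p)
  refine (h3 : HasFDerivAt (fun q => (E.ev q f).re) _ p).congr_fderiv ?_
  apply ContinuousLinearMap.ext
  intro w
  simp only [ContinuousLinearMap.comp_apply, clf_apply, lf_apply, Complex.reCLM_apply,
    Complex.add_re, Complex.real_smul, Complex.mul_re, Complex.ofReal_re, Complex.ofReal_im,
    Complex.I_re, Complex.I_im]
  ring

theorem im_hasFDerivAt {f g h : W} (h1 : E.Du f g) (h2 : E.Dt f h) (p : ℝ × ℝ) :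
    HasFDerivAt (fun q => (E.ev q f).im) (lf (E.ev p g).re (E.ev p h).re) p := by
  have h3 := (Complex.imCLM.hasFDerivAt (x := E.ev p f)).comp p (E.hasFDerivAt h1 h2 p)
  refine (h3 : HasFDerivAt (fun q => (E.ev q f).im) _ p).congr_fderiv ?_
  apply ContinuousLinearMap.ext
  intro w
  simp only [ContinuousLinearMap.comp_apply, clf_apply, lf_apply, Complex.imCLM_apply,
    Complex.add_im, Complex.real_smul, Complex.mul_im, Complex.ofReal_re, Complex.ofReal_im,
    Complex.I_re, Complex.I_im]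
  ring

theorem re_contDiff (f : W) : ContDiff ℝ ∞ (fun p => (E.ev p f).re) :=
  Complex.reCLM.contDiff.comp (E.smooth f)

theorem im_contDiff (f : W) : ContDiff ℝ ∞ (fun p => (E.ev p f).im) :=
  Complex.imCLM.contDiff.comp (E.smooth f)

theorem neg_hasFDerivAt {f : ℝ × ℝ → ℝ} {a b : ℝ} {p : ℝ × ℝ} (h : HasFDerivAt f (lf a b) p) :
    HasFDerivAt (fun q => -f q) (lf (-a) (-b)) p := by
  refine h.neg.congr_fderiv ?_
  apply ContinuousLinearMap.ext
  intro w
  simp only [neg_apply, lf_apply]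
  ring

theorem lf_inj {a b a' b' : ℝ} (h : lf a b = lf a' b') : a = a' ∧ b = b' := by
  constructor
  · have := congrArg (fun L => L (1, 0)) h
    simpa [lf_apply] using this
  · have := congrArg (fun L => L (0, 1)) h
    simpa [lf_apply] using this

/-- the derivatives of a real element are imaginary -/
theorem IsRe.deriv {E : Ev W} {f g h : W} (hf : E.IsRe f) (h1 : E.Du f g) (h2 : E.Dt f h) :
    E.IsIm g ∧ E.IsIm h := by
  have h3 : ∀ p, (E.ev p g).re = 0 ∧ (E.ev p h).re = 0 := by
    intro p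
    have h4 := E.im_hasFDerivAt h1 h2 p
    have h5 : (fun q => (E.ev q f).im) = fun _ => (0 : ℝ) := funext hf
    rw [h5] at h4
    have h6 := h4.unique (hasFDerivAt_const (0 : ℝ) p)
    have h7 : (0 : ℝ × ℝ →L[ℝ] ℝ) = lf 0 0 := by simp [lf]
    rw [h7] at h6
    exact lf_inj h6
  exact ⟨fun p => (h3 p).1, fun p => (h3 p).2⟩

/-- the derivatives of an imaginary element are real -/
theorem IsIm.deriv {E : Ev W} {f g h : W} (hf : E.IsIm f) (h1 : E.Du f g) (h2 : E.Dt f h) :
    E.IsRe g ∧ E.IsRe h := by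
  have h3 : ∀ p, -(E.ev p g).im = 0 ∧ -(E.ev p h).im = 0 := by
    intro p
    have h4 := E.re_hasFDerivAt h1 h2 p
    have h5 : (fun q => (E.ev q f).re) = fun _ => (0 : ℝ) := funext hf
    rw [h5] at h4
    have h6 := h4.unique (hasFDerivAt_const (0 : ℝ) p)
    have h7 : (0 : ℝ × ℝ →L[ℝ] ℝ) = lf 0 0 := by simp [lf]
    rw [h7] at h6
    exact lf_inj h6
  exact ⟨fun p => neg_eq_zero.mp (h3 p).1, fun p => neg_eq_zero.mp (h3 p).2⟩

theorem IsRe.eq {E : Ev W} {f : W} (hf : E.IsRe f) (p : ℝ × ℝ) :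
    E.ev p f = ((E.ev p f).re : ℂ) := by
  apply Complex.ext
  · simp
  · simp [hf p]

theorem IsIm.eq {E : Ev W} {f : W} (hf : E.IsIm f) (p : ℝ × ℝ) :
    E.ev p f = I * ((E.ev p f).im : ℂ) := by
  apply Complex.ext
  · simp [hf p]
  · simp

end Ev

/-- the real part of a jet -/
theorem WJet.reJet {E : Ev W} {v j m jj jm mm : W} (J : WJet E v j m jj jm mm) :
    Jet2 (fun p => (E.ev p v).re) (fun p => -(E.ev p j).im) (fun p => -(E.ev p m).im)
      (fun p => -(E.ev p jj).re) (fun p => -(E.ev p jm).re) (fun p => -(E.ev p mm).re) where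
  smooth := E.re_contDiff v
  d := E.re_hasFDerivAt J.u J.t
  du := fun p => Ev.neg_hasFDerivAt (E.im_hasFDerivAt J.uu J.ut p)
  dv := fun p => Ev.neg_hasFDerivAt (E.im_hasFDerivAt J.tu J.tt p)

/-- the imaginary part of a jet -/
theorem WJet.imJet {E : Ev W} {v j m jj jm mm : W} (J : WJet E v j m jj jm mm) :
    Jet2 (fun p => (E.ev p v).im) (fun p => (E.ev p j).re) (fun p => (E.ev p m).re)
      (fun p => -(E.ev p jj).im) (fun p => -(E.ev p jm).im) (fun p => -(E.ev p mm).im) where
  smooth := E.im_contDiff v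
  d := E.im_hasFDerivAt J.u J.t
  du := fun p => E.re_hasFDerivAt J.uu J.ut p
  dv := fun p => E.re_hasFDerivAt J.tu J.tt p

end D3.H13
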