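import Pool.Agent.H.MP_ce2c94_gt.h16.Pos

/-!
The value of a table of cosines at the origin by a digit sum.
-/

open Set Filter Topology

namespace D3

open Pool.MP_ce2c94_gt.D3W Pool.Agent.H.MP_ce2c94_gt.h46

/-- the sum of the first `n` digits of the row `N` -/
def rowS (m w N n : ℕ) : ℕ :=
  @Nat.rec (fun _ => ℕ) 0 (fun i r => Nat.add r (dgM m N w i)) n

/-- the sum of the digits of the first `k` rows -/
def colS (m w n : ℕ) : List ℕ → ℕ → ℕ
  | _, 0 => 0
  | [], _ + 1 => 0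
  | a :: l, k + 1 => Nat.add (rowS m w a n) (colS m w n l k)

/-- the sum of all digits of a table -/
def totS (B : Base) : ℕ := colS (Nat.pred (Nat.pow 2 B.w)) B.w (B.I + 1) B.N (B.J + 1)

theorem rowS_eq (w N n : ℕ) :
    rowS (Nat.pred (Nat.pow 2 w)) w N n = ∑ i ∈ Finset.range n, dgN N w i := by
  induction n with
  | zero => rfl
  | succ n ih =>
    rw [Finset.sum_range_succ, ← ih]
    rfl

theorem rowS_zero (w n : ℕ) : rowS (Nat.pred (Nat.pow 2 w)) w 0 n = 0 := by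
  rw [rowS_eq]
  refine Finset.sum_eq_zero fun i _ => ?_
  rw [dgN_eq]
  simp

theorem colS_eq (w n : ℕ) : ∀ (l : List ℕ) (k : ℕ),
    colS (Nat.pred (Nat.pow 2 w)) w n l k =
      ∑ j ∈ Finset.range k, rowS (Nat.pred (Nat.pow 2 w)) w (nthD l j) n
  | l, 0 => by cases l <;> rfl
  | [], k + 1 => by
    have : ∀ j, nthD [] j = 0 := fun j => rfl
    simp only [this, rowS_zero, Finset.sum_const_zero]
    rfl
  | a :: l, k + 1 => by
    rw [Finset.sum_range_succ']
    change rowS _ w a n + colS _ w n l k = _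
    rw [colS_eq w n l k, add_comm]
    rfl

theorem sumB_eq (B : Base) : sumB B =
    (totS B : ℤ) - (B.J + 1) * ((B.I + 1) * 2 ^ (B.w - 1)) := by
  unfold sumB totS qf
  rw [colS_eq]
  simp only [rowS_eq, Finset.sum_sub_distrib, Finset.sum_const, Finset.card_range, nsmul_eq_mul]
  push_cast
  ring

/-- A lower bound of the value at the origin of a table of cosines. -/
theorem orig_ge (B : Base) (h1 : B.ε = 1) (h2 : B.δ = 1) {n d : ℕ} (hd : 0 < d)
    (h : Nat.ble (n * 2 ^ B.p + 4 * d * ((B.J + 1) * ((B.I + 1) * 2 ^ (B.w - 1))))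
      (4 * d * totS B) = true) : (n : ℝ) / d ≤ (evp (0, 0) (baseJ B).f).re := by
  rw [Nat.ble_eq] at h
  have e : (baseJ B).f = baseW B 0 0 := rfl
  rw [e, evp_baseW B h1 h2, Complex.ofReal_re, sumB_eq]
  have h3 : ((n * 2 ^ B.p + 4 * d * ((B.J + 1) * ((B.I + 1) * 2 ^ (B.w - 1))) : ℕ) : ℝ) ≤
      ((4 * d * totS B : ℕ) : ℝ) := by exact_mod_cast h
  push_cast at h3 ⊢
  have hd' : (0 : ℝ) < d := by exact_mod_cast hd
  rw [div_le_iff₀ hd']
  have hp : (0 : ℝ) < 2 ^ B.p := by positivity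
  rw [← mul_le_mul_iff_of_pos_right hp]
  have e2 : ((2 : ℝ) ^ B.p)⁻¹ * (4 * ((totS B : ℝ) - (B.J + 1) * ((B.I + 1) * 2 ^ (B.w - 1)))) *
      d * 2 ^ B.p = 4 * d * totS B - 4 * d * ((B.J + 1) * ((B.I + 1) * 2 ^ (B.w - 1))) := by
    field_simp
  rw [e2]
  linarith

end D3
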