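import Pool.Agent.H.MP_ce2c94_gt.D3.Main
import Pool.Agent.H.MP_ce2c94_gt.D3.ColTab
import Pool.Agent.H.MP_ce2c94_gt.h16.PosP

/-!
The perturbed surface is close to the tabulated one; norms of tables by one kernel check.
-/

open Set Filter Topology

namespace D3

open Pool.MP_ce2c94_gt Pool.MP_ce2c94_gt.D3W Pool.MP_ce2c94_gt.D3S Pool.MP_ce2c94_gt.D3E
open Pool.Agent.H.MP_ce2c94_gt.h46

/-- bounds for the three components of the direction and their first derivatives -/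
structure VBd (V : Hat W) (v v1 v2 : ℚ) : Prop where
  P : ‖V.P.f‖ ≤ v
  Q : ‖V.Q.f‖ ≤ v
  Z : ‖V.Z.f‖ ≤ v
  Pu : ‖V.P.fu‖ ≤ v1
  Qu : ‖V.Q.fu‖ ≤ v1
  Zu : ‖V.Z.fu‖ ≤ v1
  Pt : ‖V.P.ft‖ ≤ v2
  Qt : ‖V.Q.ft‖ ≤ v2
  Zt : ‖V.Z.ft‖ ≤ v2

/-- **The perturbed surface is close to the background.** -/
theorem pert_close {C V : Hat W} {P : Prm} (hP : P.Ok) {y : W} {ρ v v1 v2 δ : ℚ} (hy : ‖y‖ ≤ ρ)
    (hV : VBd V v v1 v2) (h0 : ρ * (P.d0 * v) ≤ δ) (h1 : ρ * (P.d1 * v + P.d0 * v1) ≤ δ)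
    (h2 : ρ * (P.d2 * v + P.d0 * v2) ≤ δ) : Close (δ : ℝ) (C.pert V (phiP P y)) C := by
  have d0 : (0 : ℝ) ≤ P.d0 := by exact_mod_cast hP.d0
  have d1 : (0 : ℝ) ≤ P.d1 := by exact_mod_cast hP.d1
  have d2 : (0 : ℝ) ≤ P.d2 := by exact_mod_cast hP.d2
  have r0 : (0 : ℝ) ≤ ρ := (norm_nonneg y).trans hy
  have n0 : ‖(phiP P y).f‖ ≤ P.d0 * ρ := (hP.norm_D 0 y).trans (mul_le_mul_of_nonneg_left hy d0)
  have n1 : ‖(phiP P y).fu‖ ≤ P.d1 * ρ := (hP.norm_D 1 y).trans (mul_le_mul_of_nonneg_left hy d1)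
  have n2 : ‖(phiP P y).ft‖ ≤ P.d2 * ρ := (hP.norm_D 2 y).trans (mul_le_mul_of_nonneg_left hy d2)
  have k0 : (ρ : ℝ) * (P.d0 * v) ≤ δ := by exact_mod_cast h0
  have k1 : (ρ : ℝ) * (P.d1 * v + P.d0 * v1) ≤ δ := by exact_mod_cast h1
  have k2 : (ρ : ℝ) * (P.d2 * v + P.d0 * v2) ≤ δ := by exact_mod_cast h2
  have key0 : ∀ f : W, ‖f‖ ≤ v → ‖(phiP P y).f * f‖ ≤ δ := fun f hf => by
    refine (norm_mul_le _ _).trans ((mul_le_mul n0 hf (norm_nonneg _) (by positivity)).trans ?_)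
    linarith
  have key1 : ∀ f g : W, ‖f‖ ≤ v → ‖g‖ ≤ v1 →
      ‖(phiP P y).fu * f + (phiP P y).f * g‖ ≤ δ := fun f g hf hg => by
    have a1 := (norm_mul_le (phiP P y).fu f).trans
      (mul_le_mul n1 hf (norm_nonneg _) (by positivity))
    have a2 := (norm_mul_le (phiP P y).f g).trans
      (mul_le_mul n0 hg (norm_nonneg _) (by positivity))
    refine (norm_add_le _ _).trans ?_
    linarith
  have key2 : ∀ f g : W, ‖f‖ ≤ v → ‖g‖ ≤ v2 →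
      ‖(phiP P y).ft * f + (phiP P y).f * g‖ ≤ δ := fun f g hf hg => by
    have a1 := (norm_mul_le (phiP P y).ft f).trans
      (mul_le_mul n2 hf (norm_nonneg _) (by positivity))
    have a2 := (norm_mul_le (phiP P y).f g).trans
      (mul_le_mul n0 hg (norm_nonneg _) (by positivity))
    refine (norm_add_le _ _).trans ?_
    linarith
  refine ⟨?_, ?_, ?_, ?_, ?_, ?_, ?_, ?_, ?_⟩ <;>
    simp only [Hat.pert, HJet.add, HJet.mul, add_sub_cancel_left]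
  · exact key0 _ hV.P
  · exact key0 _ hV.Q
  · exact key0 _ hV.Z
  · exact key1 _ _ hV.P hV.Pu
  · exact key1 _ _ hV.Q hV.Qu
  · exact key1 _ _ hV.Z hV.Zu
  · exact key2 _ _ hV.P hV.Pt
  · exact key2 _ _ hV.Q hV.Qt
  · exact key2 _ _ hV.Z hV.Zt

/-- norm of one table -/
def nrmC (P : Par) (x : Base × ℕ × ℕ × ℕ × ℕ) : Bool :=
  tabK P x.1 x.2.1 x.2.2.1 fun c => normK P c x.2.2.2.1 x.2.2.2.2

/-- norms of tables: the list contains `(B, a, c, n, q)` for `‖baseW B a c‖ ≤ n / 2 ^ q` -/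
def nrmChk (b W' h I0 J0 k : ℕ) (l : List (Base × ℕ × ℕ × ℕ × ℕ)) : Bool :=
  Nat.ble ((I0 + J0) * 2 ^ (k + 1)) (2 ^ 20) &&
  mkPar b W' h I0 J0 k fun P => P.ok && l.all (nrmC P)

theorem nrmChk_sound {b W' h I0 J0 k : ℕ} {l : List (Base × ℕ × ℕ × ℕ × ℕ)}
    (hc : nrmChk b W' h I0 J0 k l = true) :
    ∀ x ∈ l, ‖baseW x.1 x.2.1 x.2.2.1‖ ≤ (x.2.2.2.1 : ℝ) / 2 ^ x.2.2.2.2 := by
  unfold nrmChk at hc
  rw [mkPar_eq, Bool.and_eq_true, Bool.and_eq_true, Nat.ble_eq] at hc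
  obtain ⟨hnu, hok, hc⟩ := hc
  have hP := Par.ok_iff _ hok
  have hn : nu ^ ((par b W' h I0 J0 k).I0 + (par b W' h I0 J0 k).J0)
      ≤ 1 + 1 / 2 ^ (par b W' h I0 J0 k).k := by
    rw [par_k, par_I0, par_J0]
    exact D3.nu_pow_le hnu
  rw [List.all_eq_true] at hc
  intro x hx
  obtain ⟨c, h1, h2⟩ := tabK_sound hn hP (hc x hx)
  exact normK_sound hP h1 h2

/-- the nine norms of a direction -/
def vList (BP BQ BZ : Base) (v v1 v2 : ℕ) : List (Base × ℕ × ℕ × ℕ × ℕ) :=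
  [(BP, 0, 0, v, 0), (BQ, 0, 0, v, 0), (BZ, 0, 0, v, 0), (BP, 1, 0, v1, 0), (BQ, 1, 0, v1, 0),
   (BZ, 1, 0, v1, 0), (BP, 0, 1, v2, 0), (BQ, 0, 1, v2, 0), (BZ, 0, 1, v2, 0)]

theorem vbd_of_check {b W' h I0 J0 k : ℕ} {BP BQ BZ : Base} {v v1 v2 : ℕ}
    (hc : nrmChk b W' h I0 J0 k (vList BP BQ BZ v v1 v2) = true) :
    VBd (tabHat BP BQ BZ) v v1 v2 := by
  have key : ∀ x ∈ vList BP BQ BZ v v1 v2, x.2.2.2.2 = 0 →
      ‖baseW x.1 x.2.1 x.2.2.1‖ ≤ (((x.2.2.2.1 : ℕ) : ℚ) : ℝ) := by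
    intro x hx h0
    have h := nrmChk_sound hc x hx
    rw [h0, pow_zero, div_one] at h
    exact_mod_cast h
  unfold vList at key
  exact ⟨key (BP, 0, 0, v, 0) (by simp) rfl, key (BQ, 0, 0, v, 0) (by simp) rfl,
    key (BZ, 0, 0, v, 0) (by simp) rfl, key (BP, 1, 0, v1, 0) (by simp) rfl,
    key (BQ, 1, 0, v1, 0) (by simp) rfl, key (BZ, 1, 0, v1, 0) (by simp) rfl,
    key (BP, 0, 1, v2, 0) (by simp) rfl, key (BQ, 0, 1, v2, 0) (by simp) rfl,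
    key (BZ, 0, 1, v2, 0) (by simp) rfl⟩

end D3
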