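import Pool.Agent.H.MP_ce2c94_gt.h13.PClose
import Pool.Agent.H.MP_ce2c94_gt.D3.ExistR

/-!
The last assembly: from a zero of the nonlinear map and the positivity check to `Sol`.
-/

open Set Filter Topology

namespace D3

open Pool.MP_ce2c94_gt Pool.MP_ce2c94_gt.D3W Pool.MP_ce2c94_gt.D3S Pool.MP_ce2c94_gt.D3E
open Pool.Agent.H.MP_ce2c94_gt.h46

/-- the parities of the seven tables -/
structure Par7 (BP BQ BZ VP VQ VZ : Base) : Prop where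
  P : BP.ε = 1 ∧ BP.δ = 1
  Q : BQ.ε = 1 ∧ BQ.δ = -1
  Z : BZ.ε = -1 ∧ BZ.δ = 1
  vP : VP.ε = 1 ∧ VP.δ = 1
  vQ : VQ.ε = 1 ∧ VQ.δ = -1
  vZ : VZ.ε = -1 ∧ VZ.δ = 1

/-- **From the existence part and the positivity near the tables to a solution.** -/
theorem exists_sol {BP BQ BZ VP VQ VZ : Base} {N : ℕ} {s : W} {P : Prm} {ρ δ : ℚ} {S0 c : ℝ}
    (par : Par7 BP BQ BZ VP VQ VZ) (hP : P.Ok)
    (hZ : IsUnit s ∧ ∃ y ∈ WS, ‖y‖ ≤ ρ ∧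
      (bgOf N s (tabHat BP BQ BZ) (tabHat VP VQ VZ)).F (Bg.jt P.D y) = 0)
    {v v1 v2 : ℕ} (hV : VBd (tabHat VP VQ VZ) v v1 v2)
    (h0 : ρ * (P.d0 * v) ≤ δ) (h1 : ρ * (P.d1 * v + P.d0 * v1) ≤ δ)
    (h2 : ρ * (P.d2 * v + P.d0 * v2) ≤ δ) (hc : 0 < c)
    (hpos : ∀ h : Hat W, IsHat evp h → Close δ h (tabHat BP BQ BZ) →
      PosW h.P.f ∧ PosW (h.cosq eu eu' S0 c) ∧ PosW (h.ang N) ∧ PosW (h.jac N S0)) :
    ∃ y, Sol (tabHat BP BQ BZ) (tabHat VP VQ VZ) N s P ρ S0 c y := by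
  obtain ⟨us, y, hy, hρ, hF⟩ := hZ
  have hC := tabHat_par BP BQ BZ par.P par.Q par.Z
  have hV' := tabHat_par VP VQ VZ par.vP par.vQ par.vZ
  have hcl := pert_close (C := tabHat BP BQ BZ) (δ := δ) hP hρ hV
    (by exact_mod_cast h0) (by exact_mod_cast h1) (by exact_mod_cast h2)
  obtain ⟨p1, p2, p3, p4⟩ := hpos _ (isHat_pert hC hV' hP hy) hcl
  exact ⟨y, hC, hV', hP, hy, hρ, us, hF, hc, p1, p2, p3, p4⟩

end D3
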